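import Pool.Agent.Helper77.SO.St
import Pool.Agent.Helper84.OF4.FO

/-!
# MP_7a9ddc_co, project SO, module FH: folding a corner which is not blocked
-/

set_option autoImplicit false

namespace Pool.Agent.Helper15.SO.FH

open Equiv Equiv.Perm Pool.Agent.Helper35.PM Pool.Agent.Helper77.HY Pool.Agent.Helper77.OF4
  Pool.Agent.Helper77.SO

/-- the cut is even -/
theorem even_cut {V D : Type} [Finite D] (M : PMap V D) (p : D → ZMod 2) : Even (cut M p) := by
  classical
  haveI := Fintype.ofFinite D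
  have h1 : cut M p = (Finset.univ.filter (fun d => p (M.ι d) ≠ p d)).card := by
    unfold cut
    rw [← Set.ncard_coe_finset]
    congr 1
    ext d
    simp
  rw [h1, ← ZMod.natCast_eq_zero_iff_even]
  have h2 : ∑ d ∈ Finset.univ.filter (fun d => p (M.ι d) ≠ p d), (1 : ZMod 2) = 0 := by
    apply Finset.sum_involution (fun d _ => M.ι d)
    · intro d _
      decide
    · intro d _ _
      exact M.nofix d
    · intro d hd
      rw [Finset.mem_filter] at hd ⊢
      refine ⟨Finset.mem_univ _, ?_⟩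
      rw [M.inv]
      exact fun h => hd.2 h.symm
    · intro d _
      exact M.inv d
  rw [Finset.sum_const, nsmul_eq_mul, mul_one] at h2
  exact h2

theorem key1 {D : Type} [Finite D] (S S' : Set D) (a b c e : D)
    (hout : ∀ z, z ≠ a → z ≠ b → z ≠ c → z ≠ e → (z ∈ S → z ∈ S'))
    (ha : a ∉ S) (hb : b ∉ S) (ha' : a ∈ S') (hb' : b ∈ S') (hab : a ≠ b) :
    S.ncard ≤ S'.ncard := by
  classical
  have h1 : S ⊆ (S' \ {a, b}) ∪ {c, e} := by
    intro z hz
    by_cases h1 : z = c
    · right; left; exact h1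
    by_cases h2 : z = e
    · right; right; exact h2
    have h3 : z ≠ a := by
      rintro rfl
      exact ha hz
    have h4 : z ≠ b := by
      rintro rfl
      exact hb hz
    left
    refine ⟨hout z h3 h4 h1 h2 hz, ?_⟩
    rintro (h5 | h5)
    · exact h3 h5
    · exact h4 h5
  have h2 := Set.ncard_le_ncard h1 (Set.toFinite _)
  have h3 := Set.ncard_union_le (S' \ {a, b}) ({c, e} : Set D)
  have h4 : ({c, e} : Set D).ncard ≤ 2 := by
    have := Set.ncard_insert_le c ({e} : Set D)
    rw [Set.ncard_singleton] at this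
    exact this
  have h5 : ({a, b} : Set D).ncard = 2 := Set.ncard_pair hab
  have h6 : ({a, b} : Set D) ⊆ S' := by
    rintro z (rfl | hz)
    · exact ha'
    · rw [Set.mem_singleton_iff] at hz
      rw [hz]
      exact hb'
  have h7 := Set.ncard_diff_add_ncard_of_subset h6 (Set.toFinite _)
  omega

theorem key2 {D : Type} [Finite D] (S S' : Set D) (a b c e : D)
    (hout : ∀ z, z ≠ a → z ≠ b → z ≠ c → z ≠ e → (z ∈ S → z ∈ S')) :
    S.ncard ≤ S'.ncard + 4 := by
  classical
  have h1 : S ⊆ S' ∪ {a, b, c, e} := by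
    intro z hz
    by_cases h1 : z = a
    · right; left; exact h1
    by_cases h2 : z = b
    · right; right; left; exact h2
    by_cases h3 : z = c
    · right; right; right; left; exact h3
    by_cases h4 : z = e
    · right; right; right; right; exact h4
    left
    exact hout z h1 h2 h3 h4 hz
  have h2 := Set.ncard_le_ncard h1 (Set.toFinite _)
  have h3 := Set.ncard_union_le S' ({a, b, c, e} : Set D)
  have h4 := Set.ncard_insert_le a ({b, c, e} : Set D)
  have h5 := Set.ncard_insert_le b ({c, e} : Set D)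
  have h6 := Set.ncard_insert_le c ({e} : Set D)
  rw [Set.ncard_singleton] at h6
  omega

theorem z2 {x δ ε : ZMod 2} (h : δ ≠ ε) (hx : x = ε) : x ≠ δ := by
  rw [hx]
  exact h.symm

theorem main (hP2 : Pool.Agent.Helper77.OF4.StP2) (hFo : Pool.Agent.Helper77.OF4.StFo) : StFh := by
  intro V D _ _ _ M d h L hOG hHC hDg p' hFC' hSep'
  have n1 : M.φ d ≠ d := by
    intro h0
    apply hOG.1 d
    rw [← t_φ M d, h0]
  have n2 : M.φ (M.φ d) ≠ d := by
    intro h0
    apply h
    rw [h0]
  have n3 : M.φ (M.φ d) ≠ M.φ d := fun h0 => n1 (M.φ.injective h0)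
  have n4 : M.ι d ≠ M.φ d := by
    intro h0
    apply h
    rw [t_φ M (M.φ d), ← h0, M.inv]
  have n5 : M.ι (M.φ d) ≠ d := by
    intro h0
    apply n4
    rw [← h0, M.inv, h0]
  obtain ⟨e1, e2, -, -⟩ := hP2 D M.φ d n1 n2
  have hf := Pool.Agent.Helper84.OF4.FO.fold_φ M d h
  rw [← hf] at e1 e2
  have e3 : (fold M d h).φ (M.φ.symm d) = M.φ (M.φ d) := by
    rw [hf, Perm.mul_apply, swap_apply_left]
  have e4 : ∀ e, e ≠ M.φ.symm d → e ≠ M.φ d → (fold M d h).φ e = M.φ e := by
    intro e h1 h2
    rw [hf, Perm.mul_apply, swap_apply_of_ne_of_ne h1 h2]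
  have f1 : p' (M.φ d) = p' d := by
    have := hFC' d
    rw [e1] at this
    exact this
  have f2 : p' (M.φ (M.φ d)) = p' (M.φ.symm d) := by
    have := hFC' (M.φ.symm d)
    rw [e3] at this
    exact this
  have hodd := (hFo V D M d h 0 hOG).2.1
  by_contra hlt
  rw [not_le] at hlt
  have hcut : cut (fold M d h) p' = cut M p' := rfl
  rw [hcut] at hlt
  set ε := p' (M.φ (M.φ d)) with hε
  set p : D → ZMod 2 := fun e => if e = d ∨ e = M.φ d then ε else p' e with hp
  have pd : p d = ε := if_pos (Or.inl rfl)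
  have pφ : p (M.φ d) = ε := if_pos (Or.inr rfl)
  have po : ∀ e, e ≠ d → e ≠ M.φ d → p e = p' e := by
    intro e h1 h2
    exact if_neg (by rintro (h3 | h3); exacts [h1 h3, h2 h3])
  have hFC : FC M p := by
    intro e
    by_cases h1 : e = d
    · rw [h1, pφ, pd]
    by_cases h2 : e = M.φ d
    · rw [h2, pφ, po _ n2 n3]
    by_cases h3 : e = M.φ.symm d
    · rw [po e h1 h2]
      have h4 : M.φ e = d := by rw [h3, Equiv.apply_symm_apply]
      rw [h4, pd, h3]
      exact f2
    · have h4 : M.φ e ≠ d := by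
        intro h0
        apply h3
        rw [← h0, Equiv.symm_apply_apply]
      have h5 : M.φ e ≠ M.φ d := fun h0 => h1 (M.φ.injective h0)
      rw [po _ h4 h5, po e h1 h2, ← e4 e h3 h2]
      exact hFC' e
  have hSep : Sep M p := by
    obtain ⟨a, b, ha, hb, hab⟩ := hSep'
    obtain ⟨a1, a2, a3⟩ := hodd a ha
    obtain ⟨b1, b2, b3⟩ := hodd b hb
    refine ⟨a, b, a3, b3, ?_⟩
    rw [po a a1 a2, po b b1 b2]
    exact hab
  have hge := hHC p hFC hSep
  -- the cuts agree outside four darts
  have hagree : ∀ z, z ≠ d → z ≠ M.ι d → z ≠ M.φ d → z ≠ M.ι (M.φ d) →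
      p z = p' z ∧ p (M.ι z) = p' (M.ι z) := by
    intro z h1 h2 h3 h4
    refine ⟨po z h1 h3, po _ ?_ ?_⟩
    · intro h0
      apply h2
      rw [← h0, M.inv]
    · intro h0
      apply h4
      rw [← h0, M.inv]
  have hout : ∀ z, z ≠ d → z ≠ M.ι d → z ≠ M.φ d → z ≠ M.ι (M.φ d) →
      z ∈ {e | p (M.ι e) ≠ p e} → z ∈ {e | p' (M.ι e) ≠ p' e} := by
    intro z h1 h2 h3 h4 hz
    obtain ⟨g1, g2⟩ := hagree z h1 h2 h3 h4
    show p' (M.ι z) ≠ p' z
    rw [← g1, ← g2]
    exact hz
  have pιd : p (M.ι d) = p' (M.ι d) := po _ (M.nofix d) n4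
  have pιφ : p (M.ι (M.φ d)) = p' (M.ι (M.φ d)) := po _ n5 (M.nofix _)
  by_cases hδ : p' d = ε
  · have hpp : p = p' := by
      funext e
      by_cases h1 : e = d
      · rw [h1, pd, hδ]
      by_cases h2 : e = M.φ d
      · rw [h2, pφ, f1, hδ]
      exact po e h1 h2
    rw [hpp] at hge
    omega
  · by_cases hx : p' (M.ι d) = ε
    · have h1 : cut M p ≤ cut M p' := by
        apply key1 {e | p (M.ι e) ≠ p e} {e | p' (M.ι e) ≠ p' e} d (M.ι d) (M.φ d) (M.ι (M.φ d))
          hout
        · intro h0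
          apply h0
          rw [pιd, pd, hx]
        · intro h0
          apply h0
          rw [M.inv, pιd, pd, hx]
        · exact z2 hδ hx
        · show p' (M.ι (M.ι d)) ≠ p' (M.ι d)
          rw [M.inv]
          exact (z2 hδ hx).symm
        · exact (M.nofix d).symm
      omega
    · by_cases hy : p' (M.ι (M.φ d)) = ε
      · have hδ2 : p' (M.φ d) ≠ ε := by
          rw [f1]
          exact hδ
        have h1 : cut M p ≤ cut M p' := by
          apply key1 {e | p (M.ι e) ≠ p e} {e | p' (M.ι e) ≠ p' e} (M.φ d) (M.ι (M.φ d)) d (M.ι d)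
            (fun z h1 h2 h3 h4 => hout z h3 h4 h1 h2)
          · intro h0
            apply h0
            rw [pιφ, pφ, hy]
          · intro h0
            apply h0
            rw [M.inv, pιφ, pφ, hy]
          · exact z2 hδ2 hy
          · show p' (M.ι (M.ι (M.φ d))) ≠ p' (M.ι (M.φ d))
            rw [M.inv]
            exact (z2 hδ2 hy).symm
          · exact (M.nofix _).symm
        omega
      · apply hDg
        refine ⟨p, hFC, hSep, ?_, ?_, ?_⟩
        · rw [pιd, pd]
          exact hx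
        · rw [pιφ, pd]
          exact hy
        · have h1 : cut M p ≤ cut M p' + 4 :=
            key2 {e | p (M.ι e) ≠ p e} {e | p' (M.ι e) ≠ p' e} d (M.ι d) (M.φ d) (M.ι (M.φ d)) hout
          obtain ⟨m, hm⟩ := even_cut M p'
          omega

end Pool.Agent.Helper15.SO.FH
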